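import Pool.Agent.W619.X.Fin

/-! Mumford's problem on tensor differentials, for quotients of products of curves. -/

set_option autoImplicit false
set_option linter.overlappingInstances false

universe u

open FF IntermediateField Pool.Agent.W619.PQ Pool.Agent.W619.PL Pool.Agent.W619.TW
  Pool.Agent.W619.X

namespace Pool.Agent.Results.MP_4329d7_ag.ProductQuotients

/-- Let `L` be the function field of a product of `n` curves `C i` with function fields `F i`, `G` a
finite group of automorphisms of `L` preserving each `F i`, and `X` a projective manifold birational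
to the quotient of the product by `G`. Let `J` be a set of indices of irrational curves, not empty
unless all the curves are rational. Assume `NonnegCondOn`, for instance that each `g` in `G` which
moves some `C i` with `i` in `J` moves at least `6` of these curves, or that each such `g` moves at
least `2` of these curves and their quotients `C i / G` are irrational or have at least `4` branch
points. If `H⁰ (X, (Ω¹) ^ ⊗ r) = 0` for all `r ≥ 1`, then all the curves are rational and `X` is
unirational (in particular rationally connected). -/
theorem result {L : Type u} [Field L] [Algebra ℂ L] (n : ℕ) (hn : Algebra.trdeg ℂ L = n)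
    (F : Fin n → IntermediateField ℂ L) (hF : ∀ i, IsFF ℂ (F i))
    (hsup : ⨆ i, F i = ⊤)
    (G : Subgroup (L ≃ₐ[ℂ] L)) [Finite G] (hst : ∀ i, ∀ g ∈ G, ∀ z ∈ F i, g z ∈ F i)
    (J : Set (Fin n)) (hJ : ∀ i ∈ J, ¬ ∃ t : F i, ℂ⟮t⟯ = ⊤)
    (hJrat : J = ∅ → ∀ i, ∃ t : F i, ℂ⟮t⟯ = ⊤) (h : NonnegCondOn J G F)
    (hT : TensorVanish ℂ (fixedField G) n) :
    (∀ i, ∃ t : F i, ℂ⟮t⟯ = ⊤) ∧ IsUnirational ℂ (fixedField G) n :=
  mumC n hn F hF hsup G hst J hJ hJrat h hT

end Pool.Agent.Results.MP_4329d7_ag.ProductQuotients
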